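import Pool.Agent.Helper16_XQ.StmtD
import Pool.Agent.Helper76_XQ.Msx
import Pool.Agent.Helper35_AEU.Inv
import Pool.Agent.Helper33_XQ.Slide
import Pool.Agent.Helper60_TRI.Heat

/-!
Squad XQ (MP_5b0138_an), Part D, module DNS: the formula for the area of the inner parallel bodies
for bodies without ties (density of the generic bodies).
-/

set_option autoImplicit false

namespace Pool.Agent.XQ.H27D

open MeasureTheory Complex Filter Topology ProbabilityTheory Pool.Agent.H16Iso Pool.Agent.H62T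
open Pool.Agent.H16F (Sublin ind)
open Pool.Agent.AEU Pool.Agent.AEU.H35

variable {l : Filter ℝ} {f : ℝ → ℂ → ℝ} {h : ℂ → ℝ}

/-! ### Continuity -/

lemma dd_tendsto (hf : ∀ w, Tendsto (fun η => f η w) l (𝓝 (h w))) (a b c : ℂ) :
    Tendsto (fun η => DD a b c (f η)) l (𝓝 (DD a b c h)) := by
  unfold DD
  exact (((hf a).const_mul _).add ((hf b).const_mul _)).add ((hf c).const_mul _)

lemma zz_tendsto (hf : ∀ w, Tendsto (fun η => f η w) l (𝓝 (h w))) (a b c : ℂ) (D : ℝ) :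
    Tendsto (fun η => ZZ a b c D (f η)) l (𝓝 (ZZ a b c D h)) := by
  unfold ZZ
  exact ((((tendsto_const_nhds.sub (dd_tendsto hf a b c)).min tendsto_const_nhds).pow 2).neg).div_const _

lemma zs_tendsto (hf : ∀ w, Tendsto (fun η => f η w) l (𝓝 (h w))) (S : Finset HP) :
    Tendsto (fun η => Zs S (f η)) l (𝓝 (Zs S h)) := by
  unfold Zs
  refine Tendsto.const_mul _ ?_
  refine tendsto_finsetSum _ fun a _ => tendsto_finsetSum _ fun b _ =>
    tendsto_finsetSum _ fun c _ => ?_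
  by_cases hD : 0 < D0 a b c
  · simp only [if_pos hD]
    exact zz_tendsto hf _ _ _ _
  · simp only [if_neg hD]
    exact tendsto_const_nhds

lemma q_tendsto {X : Finset HP} {q : (ℂ → ℝ) → ℝ} (hq : Quad X q)
    (hf : ∀ w, Tendsto (fun η => f η w) l (𝓝 (h w))) :
    Tendsto (fun η => q (f η)) l (𝓝 (q h)) := by
  obtain ⟨w0, w1, w2, hw⟩ := hq.form
  simp only [hw]
  refine (tendsto_const_nhds.add ?_).add ?_
  · exact tendsto_finsetSum _ fun s _ => (hf s.1).const_mul _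
  · exact tendsto_finsetSum _ fun s _ => tendsto_finsetSum _ fun r _ =>
      ((hf s.1).mul (hf r.1)).const_mul _

/-- bounded sets of translations -/
lemma norm_bound {X : Finset HP} (hX : Pg X) : ∃ C : ℝ, 0 ≤ C ∧ ∀ (h : ℂ → ℝ) (x : ℂ),
    (∀ s ∈ X, ip s.1 x ≤ s.2 - h s.1) → ‖x‖ ≤ C * (1 + ∑ s ∈ X, |h s.1|) := by
  obtain ⟨o, ho⟩ := H62.opn_nonempty hX
  obtain ⟨ρ, hρ⟩ := hX.bdd.exists_norm_le
  have hoρ : ‖o‖ ≤ ρ := hρ o fun s hs => (ho s hs).le
  have hρ0 : 0 ≤ ρ := (norm_nonneg o).trans hoρ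
  obtain ⟨ε, hε, hε'⟩ : ∃ ε : ℝ, 0 < ε ∧ ∀ s ∈ X, ip s.1 o + ε ≤ s.2 := by
    have hne : X.Nonempty := Finset.card_pos.1 (by have := hX.card; omega)
    obtain ⟨s0, hs0, hmin⟩ := X.exists_min_image (fun s => s.2 - ip s.1 o) hne
    refine ⟨s0.2 - ip s0.1 o, sub_pos.2 (ho s0 hs0), fun s hs => ?_⟩
    have := hmin s hs
    linarith
  obtain ⟨A, hA⟩ : ∃ A : ℝ, A = ∑ s ∈ X, |s.2| := ⟨_, rfl⟩
  have hA0 : 0 ≤ A := by rw [hA]; exact Finset.sum_nonneg fun _ _ => abs_nonneg _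
  refine ⟨(1 + A) * (ρ + ‖o‖) / ε, by positivity, fun h x hx => ?_⟩
  obtain ⟨K, hK⟩ : ∃ K : ℝ, K = ∑ s ∈ X, |h s.1| := ⟨_, rfl⟩
  have hK0 : 0 ≤ K := by rw [hK]; exact Finset.sum_nonneg fun _ _ => abs_nonneg _
  rw [← hK]
  obtain ⟨b, hb⟩ : ∃ b : ℝ, b = (1 + A) * (1 + K) := ⟨_, rfl⟩
  have hb0 : 0 < b := by rw [hb]; positivity
  have h1 : o + ((ε / b : ℝ) : ℂ) * x ∈ Cl X := by
    intro s hs
    have h2 : ip s.1 x ≤ b := by
      refine (hx s hs).trans ?_
      have e1 := le_abs_self s.2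
      have e2 := neg_abs_le (h s.1)
      have e3 := H76.sum_abs_ge hs h
      have e4 := H76.sum_abs_ge' hs
      rw [← hK] at e3
      rw [← hA] at e4
      rw [hb]
      nlinarith
    rw [H59.ip_add_right, H59.ip_mul_right]
    have h3 : ε / b * ip s.1 x ≤ ε := by
      calc ε / b * ip s.1 x ≤ ε / b * b := by gcongr
        _ = ε := by field_simp
    have := hε' s hs
    linarith
  have h2 := hρ _ h1
  have h3 : ‖((ε / b : ℝ) : ℂ) * x‖ ≤ ρ + ‖o‖ := by
    calc ‖((ε / b : ℝ) : ℂ) * x‖ = ‖(o + ((ε / b : ℝ) : ℂ) * x) - o‖ := by congr 1; ring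
      _ ≤ ‖o + ((ε / b : ℝ) : ℂ) * x‖ + ‖o‖ := norm_sub_le _ _
      _ ≤ _ := by gcongr
  rw [norm_mul, Complex.norm_real, Real.norm_of_nonneg (by positivity)] at h3
  have h6 : (1 + A) * (ρ + ‖o‖) / ε * (1 + K) = b * (ρ + ‖o‖) / ε := by rw [hb]; ring
  rw [h6, le_div_iff₀ hε]
  have h4 : ε / b * ‖x‖ * b ≤ (ρ + ‖o‖) * b := by gcongr
  have h5 : ε / b * ‖x‖ * b = ‖x‖ * ε := by field_simp
  linarith

lemma cell_bound {F : Finset HP} {c : HP → ℝ} (h4 : F.card = 4) (hu : ∀ s ∈ F, ‖s.1‖ = 1)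
    (hN : Np F) (hc : ∀ s ∈ F, c s ≠ 0) (hd : ∑ s ∈ F, ((c s : ℝ) : ℂ) * s.1 = 0) :
    ∃ C : ℝ, 0 ≤ C ∧ ∀ (h : ℂ → ℝ) (x : ℂ), ((∀ s ∈ Mp F c, s.2 < ip s.1 x + h s.1) ∧
      ∀ s ∈ Mm F c, ip s.1 x + h s.1 < s.2) → ‖x‖ ≤ C * (1 + ∑ s ∈ F, |h s.1|) := by
  obtain ⟨M, hM⟩ : ∃ M : ℝ, M = ∑ s ∈ F, |c s| * (1 + |s.2|) := ⟨_, rfl⟩
  have hM0 : 0 ≤ M := by
    rw [hM]; exact Finset.sum_nonneg fun _ _ => by positivity
  obtain ⟨a, ha, b, hb, hab⟩ := Finset.one_lt_card.1 (by omega : 1 < F.card)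
  have hdt : 0 < |dt a.1 b.1| := abs_pos.2 (hN a ha b hb hab)
  have hca : 0 < |c a| := abs_pos.2 (hc a ha)
  have hcb : 0 < |c b| := abs_pos.2 (hc b hb)
  refine ⟨(2 * M / |c a| + 2 * M / |c b|) / |dt a.1 b.1|, by positivity, fun h x hx => ?_⟩
  obtain ⟨K, hK⟩ : ∃ K : ℝ, K = ∑ s ∈ F, |h s.1| := ⟨_, rfl⟩
  have hK0 : 0 ≤ K := by rw [hK]; exact Finset.sum_nonneg fun _ _ => abs_nonneg _
  rw [← hK]
  have hT : ∀ s ∈ F, |c s| * (|h s.1| + |s.2|) ≤ |c s| * (1 + |s.2|) * (1 + K) := by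
    intro s hs
    rw [mul_assoc]
    refine mul_le_mul_of_nonneg_left ?_ (abs_nonneg _)
    have := H76.sum_abs_ge hs h
    have := abs_nonneg s.2
    have := abs_nonneg (h s.1)
    rw [← hK] at *
    nlinarith
  have hT2 : ∀ s ∈ F, |c s| * (1 + |s.2|) * (1 + K) ≤ M * (1 + K) := by
    intro s hs
    refine mul_le_mul_of_nonneg_right ?_ (by positivity)
    rw [hM]
    exact Finset.single_le_sum (f := fun s : HP => |c s| * (1 + |s.2|))
      (fun _ _ => by positivity) hs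
  have h1 := H76.cell_pos hc hx
  have h2 := H76.cell_sum hd h x
  have h3 : ∑ s ∈ F, c s * h s.1 - ∑ s ∈ F, c s * s.2 ≤ M * (1 + K) := by
    rw [← Finset.sum_sub_distrib, hM, Finset.sum_mul]
    refine Finset.sum_le_sum fun s hs => ?_
    refine le_trans ?_ (hT s hs)
    rw [← mul_sub]
    refine (le_abs_self _).trans ?_
    rw [abs_mul]
    exact mul_le_mul_of_nonneg_left (abs_sub _ _) (abs_nonneg _)
  have h4 : ∀ s ∈ F, |ip s.1 x| ≤ 2 * M / |c s| * (1 + K) := by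
    intro s hs
    have h5 : c s * (ip s.1 x + h s.1 - s.2) ≤ M * (1 + K) := by
      refine le_trans ?_ h3
      rw [← h2]
      exact Finset.single_le_sum (f := fun s : HP => c s * (ip s.1 x + h s.1 - s.2))
        (fun r hr => (h1 r hr).le) hs
    have h6 := h1 s hs
    have h7 : |c s| * |ip s.1 x| ≤ 2 * M * (1 + K) := by
      have h8 : |c s| * |ip s.1 x| ≤
          c s * (ip s.1 x + h s.1 - s.2) + |c s| * (|h s.1| + |s.2|) := by
        calc |c s| * |ip s.1 x| = |c s * (ip s.1 x + h s.1 - s.2) - c s * (h s.1 - s.2)| := by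
              rw [← abs_mul]; congr 1; ring
          _ ≤ |c s * (ip s.1 x + h s.1 - s.2)| + |c s * (h s.1 - s.2)| := abs_sub _ _
          _ ≤ _ := by
            rw [abs_of_pos h6, abs_mul (c s) (h s.1 - s.2)]
            gcongr
            exact abs_sub _ _
      have := hT s hs
      have := hT2 s hs
      linarith
    have hcs : 0 < |c s| := abs_pos.2 (hc s hs)
    have h9 : 2 * M / |c s| * (1 + K) = 2 * M * (1 + K) / |c s| := by ring
    rw [h9, le_div_iff₀ hcs]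
    linarith
  have h5 := H76.norm_le_of_ip (x := x) (hu a ha) (hu b hb)
  have h6 := h4 a ha
  have h7 := h4 b hb
  have h8 : (2 * M / |c a| + 2 * M / |c b|) / |dt a.1 b.1| * (1 + K) =
      (2 * M / |c a| * (1 + K) + 2 * M / |c b| * (1 + K)) / |dt a.1 b.1| := by ring
  rw [h8, le_div_iff₀ hdt]
  linarith

lemma sum_abs_tendsto (hf : ∀ w, Tendsto (fun η => f η w) l (𝓝 (h w))) (X : Finset HP) :
    Tendsto (fun η => ∑ s ∈ X, |f η s.1|) l (𝓝 (∑ s ∈ X, |h s.1|)) :=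
  tendsto_finsetSum _ fun s _ => (hf s.1).abs

lemma bdd_ev (hf : ∀ w, Tendsto (fun η => f η w) l (𝓝 (h w))) (X : Finset HP) {C : ℝ}
    (hC : 0 ≤ C) : ∀ᶠ η in l, C * (1 + ∑ s ∈ X, |f η s.1|) ≤ C * (2 + ∑ s ∈ X, |h s.1|) := by
  have h1 := (sum_abs_tendsto hf X).eventually (gt_mem_nhds (lt_add_one _))
  filter_upwards [h1] with η hη
  refine mul_le_mul_of_nonneg_left ?_ hC
  linarith

lemma ae_off (X : Finset HP) (hu : ∀ s ∈ X, ‖s.1‖ = 1) (h : ℂ → ℝ) :
    ∀ᵐ x : ℂ, ∀ s ∈ X, ip s.1 x ≠ s.2 - h s.1 := by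
  rw [eventually_all_finset]
  intro s hs
  have := H62T.H60.volume_line s.1 (hu s hs) (s.2 - h s.1)
  rw [ae_iff]
  simpa using this

lemma vx_tendsto [IsCountablyGenerated l] {X : Finset HP} (hX : Pg X)
    (hf : ∀ w, Tendsto (fun η => f η w) l (𝓝 (h w))) :
    Tendsto (fun η => VX X (f η)) l (𝓝 (VX X h)) := by
  have hm : ∀ g : ℂ → ℝ, MeasurableSet {x : ℂ | ∀ s ∈ X, ip s.1 x ≤ s.2 - g s.1} := by
    intro g
    have : {x : ℂ | ∀ s ∈ X, ip s.1 x ≤ s.2 - g s.1} =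
        ⋂ s ∈ X, {x : ℂ | ip s.1 x ≤ s.2 - g s.1} := by ext; simp
    rw [this]
    exact Finset.measurableSet_biInter _ fun s _ =>
      measurableSet_le (H62T.H60.continuous_ip s.1).measurable measurable_const
  obtain ⟨C, hC0, hC⟩ := norm_bound hX
  have hfin : volume {x : ℂ | ∀ s ∈ X, ip s.1 x ≤ s.2 - h s.1} ≠ ⊤ := by
    have h1 : {x : ℂ | ∀ s ∈ X, ip s.1 x ≤ s.2 - h s.1} ⊆
        Metric.closedBall (0 : ℂ) (C * (1 + ∑ s ∈ X, |h s.1|)) := fun x hx => by
      simpa using hC h x hx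
    exact ((measure_mono h1).trans_lt measure_closedBall_lt_top).ne
  unfold VX
  refine (ENNReal.tendsto_toReal hfin).comp ?_
  refine tendsto_measure_of_ae_tendsto_indicator l (hm h) (fun η => hm (f η))
    (B := Metric.closedBall (0 : ℂ) (C * (2 + ∑ s ∈ X, |h s.1|))) Metric.isClosed_closedBall.measurableSet
    measure_closedBall_lt_top.ne ?_ ?_
  · filter_upwards [bdd_ev hf X hC0] with η hη
    intro x hx
    have := hC _ x hx
    simpa using this.trans hη
  · filter_upwards [ae_off X hX.unit h] with x hx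
    have h1 : ∀ s ∈ X, ∀ᶠ η in l, (ip s.1 x ≤ s.2 - f η s.1 ↔ ip s.1 x ≤ s.2 - h s.1) := by
      intro s hs
      have h2 : Tendsto (fun η => s.2 - f η s.1) l (𝓝 (s.2 - h s.1)) :=
        tendsto_const_nhds.sub (hf s.1)
      rcases lt_or_gt_of_ne (hx s hs) with h3 | h3
      · filter_upwards [h2.eventually (lt_mem_nhds h3)] with η hη
        exact iff_of_true hη.le h3.le
      · filter_upwards [h2.eventually (gt_mem_nhds h3)] with η hη
        exact iff_of_false (not_le.2 hη) (not_le.2 h3)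
    have h2 := (eventually_all_finset X).2 h1
    filter_upwards [h2] with η hη
    exact forall₂_congr hη

lemma ar_tendsto [IsCountablyGenerated l] {F : Finset HP} {c : HP → ℝ} (h4 : F.card = 4)
    (hu : ∀ s ∈ F, ‖s.1‖ = 1) (hN : Np F) (hc : ∀ s ∈ F, c s ≠ 0)
    (hd : ∑ s ∈ F, ((c s : ℝ) : ℂ) * s.1 = 0)
    (hf : ∀ w, Tendsto (fun η => f η w) l (𝓝 (h w))) :
    Tendsto (fun η => Ar (Mp F c) (Mm F c) (f η)) l (𝓝 (Ar (Mp F c) (Mm F c) h)) := by
  classical
  have hMp : Mp F c ⊆ F := by unfold Mp; exact Finset.filter_subset _ _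
  have hMm : Mm F c ⊆ F := by unfold Mm; exact Finset.filter_subset _ _
  have hm : ∀ g : ℂ → ℝ, MeasurableSet {x : ℂ | (∀ s ∈ Mp F c, s.2 < ip s.1 x + g s.1) ∧
      ∀ s ∈ Mm F c, ip s.1 x + g s.1 < s.2} := by
    intro g
    have : {x : ℂ | (∀ s ∈ Mp F c, s.2 < ip s.1 x + g s.1) ∧
      ∀ s ∈ Mm F c, ip s.1 x + g s.1 < s.2} =
        (⋂ s ∈ Mp F c, {x : ℂ | s.2 < ip s.1 x + g s.1}) ∩
          ⋂ s ∈ Mm F c, {x : ℂ | ip s.1 x + g s.1 < s.2} := by ext; simp
    rw [this]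
    have hmm : ∀ s : HP, Measurable fun x : ℂ => ip s.1 x + g s.1 := fun s =>
      (H62T.H60.continuous_ip s.1).measurable.add_const _
    exact (Finset.measurableSet_biInter _ fun s _ =>
      measurableSet_lt measurable_const (hmm s)).inter (Finset.measurableSet_biInter _ fun s _ =>
      measurableSet_lt (hmm s) measurable_const)
  obtain ⟨C, hC0, hC⟩ := cell_bound h4 hu hN hc hd
  have hfin : volume {x : ℂ | (∀ s ∈ Mp F c, s.2 < ip s.1 x + h s.1) ∧
      ∀ s ∈ Mm F c, ip s.1 x + h s.1 < s.2} ≠ ⊤ := by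
    have h1 : {x : ℂ | (∀ s ∈ Mp F c, s.2 < ip s.1 x + h s.1) ∧
      ∀ s ∈ Mm F c, ip s.1 x + h s.1 < s.2} ⊆
        Metric.closedBall (0 : ℂ) (C * (1 + ∑ s ∈ F, |h s.1|)) := fun x hx => by
      simpa using hC h x hx
    exact ((measure_mono h1).trans_lt measure_closedBall_lt_top).ne
  unfold Ar
  refine (ENNReal.tendsto_toReal hfin).comp ?_
  refine tendsto_measure_of_ae_tendsto_indicator l (hm h) (fun η => hm (f η))
    (B := Metric.closedBall (0 : ℂ) (C * (2 + ∑ s ∈ F, |h s.1|))) Metric.isClosed_closedBall.measurableSet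
    measure_closedBall_lt_top.ne ?_ ?_
  · filter_upwards [bdd_ev hf F hC0] with η hη
    intro x hx
    have := hC _ x hx
    simpa using this.trans hη
  · filter_upwards [ae_off F hu h] with x hx
    have h0 : ∀ s : HP, Tendsto (fun η => ip s.1 x + f η s.1) l (𝓝 (ip s.1 x + h s.1)) :=
      fun s => tendsto_const_nhds.add (hf s.1)
    have h1 : ∀ s ∈ Mp F c, ∀ᶠ η in l, (s.2 < ip s.1 x + f η s.1 ↔ s.2 < ip s.1 x + h s.1) := by
      intro s hs
      have h3 : ip s.1 x + h s.1 ≠ s.2 := fun h5 => hx s (hMp hs) (by linarith)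
      rcases lt_or_gt_of_ne h3 with h3 | h3
      · filter_upwards [(h0 s).eventually (gt_mem_nhds h3)] with η hη
        exact iff_of_false (not_lt.2 hη.le) (not_lt.2 h3.le)
      · filter_upwards [(h0 s).eventually (lt_mem_nhds h3)] with η hη
        exact iff_of_true hη h3
    have h2 : ∀ s ∈ Mm F c, ∀ᶠ η in l, (ip s.1 x + f η s.1 < s.2 ↔ ip s.1 x + h s.1 < s.2) := by
      intro s hs
      have h3 : ip s.1 x + h s.1 ≠ s.2 := fun h5 => hx s (hMm hs) (by linarith)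
      rcases lt_or_gt_of_ne h3 with h3 | h3
      · filter_upwards [(h0 s).eventually (gt_mem_nhds h3)] with η hη
        exact iff_of_true hη h3
      · filter_upwards [(h0 s).eventually (lt_mem_nhds h3)] with η hη
        exact iff_of_false (not_lt.2 hη.le) (not_lt.2 h3.le)
    filter_upwards [(eventually_all_finset _).2 h1, (eventually_all_finset _).2 h2] with η a1 a2
    exact and_congr (forall₂_congr a1) (forall₂_congr a2)

/-! ### Events -/

/-- stability of the event `Ev` -/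
lemma ev_stable {X : Finset HP} {a b c : HP} (ha : a ∈ X) (hb : b ∈ X) (hc : c ∈ X)
    (hab : dt a.1 b.1 ≠ 0) (hD : 0 < D0 a b c) (hDD : D0 a b c < DD a.1 b.1 c.1 h)
    (hnt : ∀ (σ : ℝ) (x : ℂ), 0 < σ → σ * h a.1 + ip a.1 x = a.2 → σ * h b.1 + ip b.1 x = b.2 →
      σ * h c.1 + ip c.1 x = c.2 → ∀ t ∈ X, t ≠ a → t ≠ b → t ≠ c → σ * h t.1 + ip t.1 x ≠ t.2)
    (hf : ∀ w, Tendsto (fun η => f η w) l (𝓝 (h w))) :
    ∀ᶠ η in l, (Ev X {a, b, c} (f η) ↔ Ev X {a, b, c} h) := by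
  have hdd := dd_tendsto hf a.1 b.1 c.1
  have hDD0 : 0 < DD a.1 b.1 c.1 h := hD.trans hDD
  have hq : Tendsto (fun η => D0 a b c / DD a.1 b.1 c.1 (f η)) l
      (𝓝 (D0 a b c / DD a.1 b.1 c.1 h)) := tendsto_const_nhds.div hdd hDD0.ne'
  obtain ⟨σ, hσ⟩ : ∃ σ, σ = D0 a b c / DD a.1 b.1 c.1 h := ⟨_, rfl⟩
  have hσ0 : 0 < σ := by rw [hσ]; positivity
  have hσD : σ * DD a.1 b.1 c.1 h = D0 a b c := by rw [hσ]; field_simp
  obtain ⟨x, hx⟩ : ∃ x, x = cpt a.1 b.1 (a.2 - σ * h a.1) (b.2 - σ * h b.1) := ⟨_, rfl⟩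
  have hxa : ip a.1 x = a.2 - σ * h a.1 := by rw [hx]; exact ip_cpt_left hab _ _
  have hxb : ip b.1 x = b.2 - σ * h b.1 := by rw [hx]; exact ip_cpt_right hab _ _
  have hxc : ip c.1 x = c.2 - σ * h c.1 := by
    have h3 := dt_ip_cyc a.1 b.1 c.1 x
    have h4 : dt a.1 b.1 * (ip c.1 x + σ * h c.1 - c.2) = 0 := by
      rw [hxa, hxb] at h3
      unfold DD D0 at hσD
      linear_combination h3 + hσD
    rcases mul_eq_zero.1 h4 with h5 | h5
    · exact absurd h5 hab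
    · linarith
  have hn := hnt σ x hσ0 (by linarith) (by linarith) (by linarith)
  have h1 : ∀ s ∈ X, ∀ᶠ η in l, ((s ≠ a → s ≠ b → s ≠ c →
      (dt a.1 s.1 * (b.2 - D0 a b c / DD a.1 b.1 c.1 (f η) * f η b.1)
      + dt s.1 b.1 * (a.2 - D0 a b c / DD a.1 b.1 c.1 (f η) * f η a.1)) / dt a.1 b.1
      + D0 a b c / DD a.1 b.1 c.1 (f η) * f η s.1 < s.2) ↔ (s ≠ a → s ≠ b → s ≠ c →
      (dt a.1 s.1 * (b.2 - D0 a b c / DD a.1 b.1 c.1 h * h b.1)
      + dt s.1 b.1 * (a.2 - D0 a b c / DD a.1 b.1 c.1 h * h a.1)) / dt a.1 b.1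
      + D0 a b c / DD a.1 b.1 c.1 h * h s.1 < s.2)) := by
    intro s hs
    by_cases hne : s ≠ a ∧ s ≠ b ∧ s ≠ c
    · obtain ⟨n1, n2, n3⟩ := hne
      have h2 := hn s hs n1 n2 n3
      have h3 : Tendsto (fun η => (dt a.1 s.1 * (b.2 - D0 a b c / DD a.1 b.1 c.1 (f η) * f η b.1)
          + dt s.1 b.1 * (a.2 - D0 a b c / DD a.1 b.1 c.1 (f η) * f η a.1)) / dt a.1 b.1
          + D0 a b c / DD a.1 b.1 c.1 (f η) * f η s.1) l
          (𝓝 ((dt a.1 s.1 * (b.2 - D0 a b c / DD a.1 b.1 c.1 h * h b.1)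
          + dt s.1 b.1 * (a.2 - D0 a b c / DD a.1 b.1 c.1 h * h a.1)) / dt a.1 b.1
          + D0 a b c / DD a.1 b.1 c.1 h * h s.1)) := by
        refine Tendsto.add (Tendsto.div_const (Tendsto.add ?_ ?_) _) (hq.mul (hf s.1))
        · exact (tendsto_const_nhds.sub (hq.mul (hf b.1))).const_mul _
        · exact (tendsto_const_nhds.sub (hq.mul (hf a.1))).const_mul _
      have h4 : (dt a.1 s.1 * (b.2 - D0 a b c / DD a.1 b.1 c.1 h * h b.1)
          + dt s.1 b.1 * (a.2 - D0 a b c / DD a.1 b.1 c.1 h * h a.1)) / dt a.1 b.1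
          + D0 a b c / DD a.1 b.1 c.1 h * h s.1 = σ * h s.1 + ip s.1 x := by
        rw [← hσ, ← hxa, ← hxb, ← dt_ip_cramer a.1 b.1 s.1 x, mul_div_cancel_left₀ _ hab]
        ring
      rw [h4] at h3 ⊢
      rcases lt_or_gt_of_ne h2 with h5 | h5
      · filter_upwards [h3.eventually (gt_mem_nhds h5)] with η hη
        exact iff_of_true (fun _ _ _ => hη) (fun _ _ _ => h5)
      · filter_upwards [h3.eventually (lt_mem_nhds h5)] with η hη
        exact iff_of_false (fun hh => absurd (hh n1 n2 n3) (not_lt.2 hη.le))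
          (fun hh => absurd (hh n1 n2 n3) (not_lt.2 h5.le))
    · refine Eventually.of_forall fun η => ?_
      refine iff_of_true (fun k1 k2 k3 => absurd ⟨k1, k2, k3⟩ hne)
        (fun k1 k2 k3 => absurd ⟨k1, k2, k3⟩ hne)
  filter_upwards [(eventually_all_finset _).2 h1, hdd.eventually (lt_mem_nhds hDD)] with η a1 a2
  rw [ev_iff' ha hb hc hab hD, ev_iff' ha hb hc hab hD]
  unfold EvY
  refine and_congr (iff_of_true a2.le hDD.le) (forall₂_congr a1)

lemma DD_tr (a b c : ℂ) (h : ℂ → ℝ) (x : ℂ) :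
    DD a b c (fun w => h w + ip w x) = DD a b c h := by
  unfold DD
  linear_combination dt_ip_cyc a b c x

lemma Zs_tr (S : Finset HP) (h : ℂ → ℝ) (x : ℂ) : Zs S (fun w => h w + ip w x) = Zs S h := by
  unfold Zs ZZ
  simp only [DD_tr]

lemma Zs_mb (S : Finset HP) (g : Iso2) (h : ℂ → ℝ) : Zs (S.image (mv g)) (mb g h) = Zs S h := by
  have h1 : mb g h = fun w => m0 g h w + ip w (g 0) := rfl
  rw [h1, Zs_tr, Zs_mv]

/-- no ties: the copy touching the lines of `S` touches no other line -/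
lemma indZs_tendsto {P X S : Finset HP} (hXP : X ⊆ P) (hSX : S ⊆ X) (hT : Tr S)
    (hnt : NoTie P h) (hf : ∀ w, Tendsto (fun η => f η w) l (𝓝 (h w))) :
    Tendsto (fun η => ind (Ev X S (f η)) * Zs S (f η)) l (𝓝 (ind (Ev X S h) * Zs S h)) := by
  classical
  have hz := zs_tendsto hf S
  by_cases h0 : Zs S h = 0
  · rw [h0] at hz
    rw [h0, mul_zero]
    refine squeeze_zero_norm (fun η => ?_) (by simpa using hz.abs)
    rw [Real.norm_eq_abs, abs_mul]
    calc |ind _| * |Zs S (f η)| ≤ 1 * |Zs S (f η)| :=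
          mul_le_mul_of_nonneg_right (abs_ind_le _) (abs_nonneg _)
      _ = _ := one_mul _
  · obtain ⟨a, b, c, rfl, hab, hac, hbc, hD⟩ := exists_order hT.card
    rcases hD.eq_or_lt with hD | hD
    · exact absurd (Zs_zero hD.symm h) h0
    have hDD : D0 a b c < DD a.1 b.1 c.1 h := by
      by_contra hcon
      rw [Zs_eq hab hac hbc hD] at h0
      exact h0 (ZZ_eq_zero (not_lt.1 hcon))
    have hdt := hT.nd a (by simp) b (by simp) hab
    have ha : a ∈ X := hSX (by simp)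
    have hb : b ∈ X := hSX (by simp)
    have hc : c ∈ X := hSX (by simp)
    have h1 := ev_stable ha hb hc hdt hD hDD (fun σ x hσ e1 e2 e3 t ht n1 n2 n3 e4 => by
      have hcard : ({t, a, b, c} : Finset HP).card = 4 := by
        rw [Finset.card_insert_of_notMem (by simp [n1, n2, n3]), hT.card]
      obtain ⟨s, hs, hne⟩ := hnt σ x hσ {t, a, b, c} (by
        intro s hs
        simp only [Finset.mem_insert, Finset.mem_singleton] at hs
        rcases hs with rfl | rfl | rfl | rfl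
        · exact hXP ht
        · exact hXP ha
        · exact hXP hb
        · exact hXP hc) hcard
      simp only [Finset.mem_insert, Finset.mem_singleton] at hs
      rcases hs with rfl | rfl | rfl | rfl
      · exact hne e4
      · exact hne e1
      · exact hne e2
      · exact hne e3) hf
    refine (hz.const_mul (ind (Ev X {a, b, c} h))).congr' ?_
    filter_upwards [h1] with η hη
    rw [propext hη]

lemma sub_rlx {X : Finset HP} {T : Finset (Finset HP)} {c : Finset HP → HP → ℝ} {S : Finset HP}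
    (hS : S ⊆ X) : S ⊆ rlx X T c S := by
  classical
  intro s hs
  unfold rlx er
  rw [Finset.mem_sdiff, Finset.mem_filter]
  exact ⟨hS hs, fun hh => hh.2.1 hs⟩

lemma rlx_sub {X : Finset HP} {T : Finset (Finset HP)} {c : Finset HP → HP → ℝ} {S : Finset HP} :
    rlx X T c S ⊆ X := by
  classical
  unfold rlx
  exact Finset.sdiff_subset

lemma tr_of {X S : Finset HP} (hX : Pg X) (hS : S ∈ X.powersetCard 3) (hN : Np S) : Tr S :=
  ⟨(Finset.mem_powersetCard.1 hS).2, fun s hs => hX.unit s ((Finset.mem_powersetCard.1 hS).1 hs),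
    hN⟩

open Classical in
/-- continuity of the contributions -/
lemma dx_tendsto [IsCountablyGenerated l] {P Q : Finset HP} {L δ : ℝ}
    {M NP NQ TP TQ : Finset (Finset HP)} {cP cQ : Finset HP → HP → ℝ}
    {KP KQ : Finset HP → ℂ → ℝ} {γ : Finset HP → Iso2} (hP : Pg P) (hQ : Pg Q)
    (hS : SplitX P Q L δ M NP NQ TP TQ cP cQ KP KQ γ)
    (hh : Sublin h) (hl : lam h < L + δ) (hnt : ∀ S ∈ M, NoTie P (mb (γ S)⁻¹ h))
    (hf : ∀ w, Tendsto (fun η => f η w) l (𝓝 (h w)))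
    (hfs : ∀ᶠ η in l, Sublin (f η) ∧ lam (f η) < L + δ) :
    Tendsto (fun η => DX Q TQ cQ ((M.image fun S => S.image (mv (γ S))) ∪ NQ) (f η)) l
      (𝓝 (DX Q TQ cQ ((M.image fun S => S.image (mv (γ S))) ∪ NQ) h)) := by
  unfold DX
  refine Tendsto.add (tendsto_finsetSum _ fun S' hS' => ?_) (tendsto_finsetSum _ fun F hF => ?_)
  · rcases Finset.mem_union.1 hS' with hS' | hS'
    · obtain ⟨S, hSM, rfl⟩ := Finset.mem_image.1 hS'
      have hSP := hS.pP.sM hSM
      have hSP' := (Finset.mem_powersetCard.1 hSP).1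
      have hT : Tr S := tr_of hP hSP (hS.pP.nM S hSM)
      have key : ∀ h' : ℂ → ℝ, Sublin h' → lam h' < L + δ →
          ind (Ev (rlx Q TQ cQ (S.image (mv (γ S)))) (S.image (mv (γ S))) h')
            * Zs (S.image (mv (γ S))) h'
          = ind (Ev (rlx P TP cP S) S (mb (γ S)⁻¹ h')) * Zs S (mb (γ S)⁻¹ h') := by
        intro h' hs' hl'
        have e1 : mb (γ S) (mb (γ S)⁻¹ h') = h' := H33.mb_inv _ _
        have e2 := hS.mat S hSM (mb (γ S)⁻¹ h') (H33.sub_mb _ hs')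
          (by rw [H33.lam_mb _ hs']; exact hl')
        rw [e1] at e2
        have e3 := Zs_mb S (γ S) (mb (γ S)⁻¹ h')
        rw [e1] at e3
        rw [← propext e2]
        congr 1
      have h2 : ∀ w, Tendsto (fun η => mb (γ S)⁻¹ (f η) w) l (𝓝 (mb (γ S)⁻¹ h w)) := by
        intro w
        unfold mb
        exact (hf _).add_const _
      have h3 := indZs_tendsto (rlx_sub (T := TP) (c := cP)) (sub_rlx hSP') hT (hnt S hSM) h2
      rw [key h hh hl]
      refine h3.congr' ?_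
      filter_upwards [hfs] with η hη
      rw [key _ hη.1 hη.2]
    · have hT : Tr S' := tr_of hQ (hS.pQ.sN hS') (hS.pQ.nN S' hS')
      have key : ∀ h' : ℂ → ℝ, Sublin h' → lam h' < L + δ →
          ind (Ev (rlx Q TQ cQ S') S' h') * Zs S' h' = Zs S' h' := by
        intro h' hs' hl'
        rw [propext (hS.pQ.loc S' hS' h' hs' hl')]
        by_cases hz : Zs S' h' = 0
        · rw [hz, mul_zero]
        · rw [H16F.H10.ind_pos (evL_of_Zs hT hz), one_mul]
      rw [key h hh hl]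
      refine (zs_tendsto hf S').congr' ?_
      filter_upwards [hfs] with η hη
      rw [key _ hη.1 hη.2]
  · obtain ⟨hFQ, hF'⟩ := hS.pQ.torn F hF
    exact (ar_tendsto hF'.card (fun s hs => hQ.unit s (hFQ hs)) hF'.np hF'.ne hF'.dep hf).const_mul _

/-- DNS -/
theorem dns (gnx : GnxStatement) (fcd : FcdStatement) : DnsStatement := by
  classical
  intro P Q L δ M NP NQ TP TQ cP cQ KP KQ γ q hP hQ hq hS
  obtain ⟨δ', m, C, hδ', hδ'δ, hm, hfc⟩ := fcd Q q L δ _ NQ TQ cQ KQ hS.L0 hS.δ0 hQ hq hS.pQ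
  refine ⟨δ', m, C, hδ', hδ'δ, hm, fun h hh hl hnt => ?_⟩
  obtain ⟨k, hk, -, hks, hkg⟩ := gnx Q hQ (L / 8) (by have := hS.L0; linarith)
  have hL0 := hS.L0
  have hf : ∀ w, Tendsto (fun η : ℝ => (1 - η) * h w + η * k w) (𝓝[>] (0 : ℝ)) (𝓝 (h w)) := by
    intro w
    have h1 : Continuous fun η : ℝ => (1 - η) * h w + η * k w := by fun_prop
    have h2 := h1.tendsto 0
    simp only [sub_zero, one_mul, zero_mul, add_zero] at h2
    exact h2.mono_left nhdsWithin_le_nhds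
  have hlam : Tendsto (fun η : ℝ => lam fun w => (1 - η) * h w + η * k w) (𝓝[>] (0 : ℝ))
      (𝓝 (lam h)) := by
    have e : (fun η : ℝ => lam fun w => (1 - η) * h w + η * k w)
        = fun η : ℝ => (1 - η) * lam h + η * lam k := by
      funext η
      exact H69.lam_mix hh hk η
    rw [e]
    have h1 : Continuous fun η : ℝ => (1 - η) * lam h + η * lam k := by fun_prop
    have h2 := h1.tendsto 0
    simp only [sub_zero, one_mul, zero_mul, add_zero] at h2
    exact h2.mono_left nhdsWithin_le_nhds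
  have h01 : ∀ᶠ η in 𝓝[>] (0 : ℝ), 0 < η ∧ η < 1 := by
    filter_upwards [self_mem_nhdsWithin, mem_nhdsWithin_of_mem_nhds (gt_mem_nhds zero_lt_one)]
      with η a1 a2
    exact ⟨a1, a2⟩
  have hev : ∀ᶠ η in 𝓝[>] (0 : ℝ), Sublin (fun w => (1 - η) * h w + η * k w) ∧
      lam (fun w => (1 - η) * h w + η * k w) < L + δ' := by
    filter_upwards [h01, hlam.eventually (gt_mem_nhds hl)] with η a1 a2
    exact ⟨H69.sub_mix hh hk a1.1.le a1.2.le, a2⟩
  have hev' : ∀ᶠ η in 𝓝[>] (0 : ℝ), Sublin (fun w => (1 - η) * h w + η * k w) ∧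
      lam (fun w => (1 - η) * h w + η * k w) < L + δ := by
    filter_upwards [hev] with η a1
    exact ⟨a1.1, by linarith [a1.2]⟩
  have tV := vx_tendsto hQ hf
  have tq := q_tendsto hq hf
  have tD := dx_tendsto hP hQ hS hh (by linarith) hnt hf hev'
  constructor
  · intro hw
    refine tendsto_nhds_unique tV ((tq.add tD).congr' ?_)
    filter_upwards [h01, hev, hkg h] with η a1 a2 a3
    refine ((hfc _ a2.1 a2.2 a3).1 ?_).symm
    intro a a' haa
    have b1 := hw a a' haa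
    have b2 := (le_abs_self _).trans_lt (hks a haa.mem)
    have b3 := (le_abs_self _).trans_lt (hks a' haa.mem')
    have c1 : (1 - η) * (h a.1 + h a'.1) ≤ (1 - η) * (L / 2) :=
      mul_le_mul_of_nonneg_left b1 (by linarith [a1.2])
    have c2 : η * (k a.1 + k a'.1) < η * (L / 2) :=
      mul_lt_mul_of_pos_left (by linarith) a1.1
    calc (1 - η) * h a.1 + η * k a.1 + ((1 - η) * h a'.1 + η * k a'.1)
        = (1 - η) * (h a.1 + h a'.1) + η * (k a.1 + k a'.1) := by ring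
      _ < (1 - η) * (L / 2) + η * (L / 2) := add_lt_add_of_le_of_lt c1 c2
      _ = L / 2 := by ring
  · intro a a' haa hw
    have tw : Tendsto (fun η : ℝ => (1 - η) * h a.1 + η * k a.1 + ((1 - η) * h a'.1 + η * k a'.1))
        (𝓝[>] (0 : ℝ)) (𝓝 (h a.1 + h a'.1)) := (hf a.1).add (hf a'.1)
    have t1 := ((tw.sub_const (L / 2)).const_mul m).sub
      (((tw.sub_const (L / 2)).pow 2).const_mul C)
    refine le_of_tendsto_of_tendsto t1 ((tV.sub tq).sub tD) ?_
    filter_upwards [hev, hkg h, tw.eventually (lt_mem_nhds hw)] with η a2 a3 a4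
    exact (hfc _ a2.1 a2.2 a3).2 a a' haa a4

end Pool.Agent.XQ.H27D
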