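import Pool.Agent.Helper36_XQ.Stmt5

/-!
Squad XQ (MP_5b0138_an), part E4, modules GA2 and GA1: near-minimal loops.
-/

set_option autoImplicit false

namespace Pool.Agent.XQ.K4.H27

open MeasureTheory Complex Filter Topology ProbabilityTheory Pool.Agent.H16Iso Pool.Agent.H62T
  Pool.Agent.H16F Pool.Agent.H38KL Pool.Agent.AEU
open scoped ENNReal NNReal

theorem uE_norm (η1 η2 δ1 δ2 : ℝ) (s : Fin 4) : ‖uE η1 η2 δ1 δ2 s‖ = 1 := by
  have h1 : ∀ a : ℝ, ‖exp (a * I)‖ = 1 := fun a => norm_exp_ofReal_mul_I a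
  have h2 : ∀ a : ℝ, ‖exp (-(a * I))‖ = 1 := fun a => by
    have : (-(a * I) : ℂ) = ((-a : ℝ) : ℂ) * I := by push_cast; ring
    rw [this]; exact norm_exp_ofReal_mul_I _
  fin_cases s <;> simp [uE, h1, h2]

/-- GA2 -/
theorem ga2 (pol : PolStatement) (ne2 : Ne2Statement) (gac : GacStatement) : Ga2Statement := by
  intro η1 η2 δ1 δ2 ρ ζ hy hζ
  obtain ⟨e1, he1, hg⟩ := gac δ1 δ2 ρ ζ hy.toHyL hζ
  obtain ⟨d1, hd1, hne⟩ := ne2 η1 η2 δ1 δ2 ρ e1 hy he1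
  refine ⟨min e1 d1, min e1 d1, lt_min he1 hd1, lt_min he1 hd1, ?_⟩
  intro δ hδ hδ0 n _ x A hv hc hs hl
  obtain ⟨-, -, pol3, -, pol5⟩ := pol
  obtain ⟨hp1, -, hp3⟩ := pol5 (uE η1 η2 δ1 δ2) (hE δ1 δ2 ρ) n x A (uE_norm _ _ _ _)
  obtain ⟨hst, hsup⟩ := hp3 δ hs
  have key : ∀ j0 j1 j2 j3 : Fin n, 0 ∈ A j0 → 1 ∈ A j1 → 2 ∈ A j2 → 3 ∈ A j3 →
      ‖x j0‖ < e1 ∧ ‖x j1‖ < e1 ∧ ‖x j2 - Qp δ1 δ2 ρ‖ < e1 ∧ ‖x j3 - Rp δ1 δ2 ρ‖ < e1 := by
    intro j0 j1 j2 j3 h0 h1 h2 h3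
    have hlam : lam (hf ![x j0, x j1, x j2, x j3]) < LE δ1 δ2 ρ + d1 :=
      lt_of_le_of_lt ((pol3 n x j0 j1 j2 j3).trans hp1)
        (lt_of_lt_of_le hl (by linarith [min_le_right e1 d1]))
    have hδd : δ ≤ d1 := le_trans hδ0.le (min_le_right _ _)
    have := hne ![x j0, x j1, x j2, x j3] (by
      intro s
      fin_cases s
      · have := hsup j0 0 h0; simp at this ⊢; linarith
      · have := hsup j1 1 h1; simp at this ⊢; linarith
      · have := hsup j2 2 h2; simp at this ⊢; linarith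
      · have := hsup j3 3 h3; simp at this ⊢; linarith) hlam
    simpa using this
  obtain ⟨hv1, -⟩ := hv
  obtain ⟨j0, hj0⟩ := hv1 0 (by decide)
  obtain ⟨j1, hj1⟩ := hv1 1 (by decide)
  obtain ⟨j2, hj2⟩ := hv1 2 (by decide)
  obtain ⟨j3, hj3⟩ := hv1 3 (by decide)
  exact hg δ hδ (lt_of_lt_of_le hδ0 (min_le_left _ _)) {0, 1} n x A ⟨0, by decide⟩ (by decide) hv1
    (by
      rintro j (h | h)
      · exact (key j j1 j2 j3 h hj1 hj2 hj3).1
      · exact (key j0 j j2 j3 hj0 h hj2 hj3).2.1)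
    (fun j h => (key j0 j1 j j3 hj0 hj1 h hj3).2.2.1)
    (fun j h => (key j0 j1 j2 j hj0 hj1 hj2 h).2.2.2) hst
    (lt_of_le_of_lt hp1 (lt_of_lt_of_le hl (by linarith [min_le_left e1 d1])))

/-- GA1 -/
theorem ga1 (pol : PolStatement) (tre : TreStatement) (gac : GacStatement) : Ga1Statement := by
  intro η1 η2 δ1 δ2 ρ ζ hy hζ
  obtain ⟨e1, he1, hg⟩ := gac δ1 δ2 ρ ζ hy.toHyL hζ
  obtain ⟨d1, hd1, htr⟩ := tre δ1 δ2 ρ e1 hy.toHyL he1
  have hpi := Real.pi_pos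
  have hsin : 0 < Real.sin (η1 + η2) := by
    apply Real.sin_pos_of_pos_of_lt_pi
    · linarith [hy.a1, hy.a2]
    · exact hy.a3
  have hc1 : Real.cos η1 < 0 :=
    Real.cos_neg_of_pi_div_two_lt_of_lt hy.a1 (by linarith [hy.a3, hy.a2])
  have hc2 : 0 < Real.cos η2 :=
    Real.cos_pos_of_mem_Ioo ⟨by linarith [hy.a2], by linarith [hy.a3, hy.a1]⟩
  have hE1 : 0 < min e1 (min d1 (d1 * Real.sin (η1 + η2))) :=
    lt_min he1 (lt_min hd1 (mul_pos hd1 hsin))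
  refine ⟨min e1 (min d1 (d1 * Real.sin (η1 + η2))), min e1 (min d1 (d1 * Real.sin (η1 + η2))),
    hE1, hE1, ?_⟩
  intro δ hδ hδ0 n _ x A hv hc hs hl
  have hm1 : min e1 (min d1 (d1 * Real.sin (η1 + η2))) ≤ e1 := min_le_left _ _
  have hm2 : min e1 (min d1 (d1 * Real.sin (η1 + η2))) ≤ d1 :=
    (min_le_right _ _).trans (min_le_left _ _)
  have hm3 : min e1 (min d1 (d1 * Real.sin (η1 + η2))) ≤ d1 * Real.sin (η1 + η2) :=
    (min_le_right _ _).trans (min_le_right _ _)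
  obtain ⟨-, pol2, -, -, pol5⟩ := pol
  obtain ⟨hp1, -, hp3⟩ := pol5 (uE η1 η2 δ1 δ2) (hE δ1 δ2 ρ) n x A (uE_norm _ _ _ _)
  obtain ⟨hst, hsup⟩ := hp3 δ hs
  obtain ⟨hv1, hv2⟩ := hv
  have h1n : ∀ j, 1 ∉ A j := fun j h => by
    have := hv2 j
    rw [Finset.disjoint_singleton_right] at this
    exact this h
  have key : ∀ j0 j2 j3 : Fin n, 0 ∈ A j0 → 2 ∈ A j2 → 3 ∈ A j3 →
      ‖x j0‖ < e1 ∧ ‖x j2 - Qp δ1 δ2 ρ‖ < e1 ∧ ‖x j3 - Rp δ1 δ2 ρ‖ < e1 := by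
    intro j0 j2 j3 h0 h2 h3
    have ha := hsup j0 0 h0
    have hb := (hc j0 1 (h1n j0)).1
    have h2' := hsup j2 2 h2
    have h3' := hsup j3 3 h3
    simp only [uE, hE, Matrix.cons_val_zero, Matrix.cons_val_one, Matrix.cons_val] at ha hb h2' h3'
    apply htr (x j0) (x j2) (x j3)
    · have e0 : ip (I * exp (η1 * I)) (x j0)
          = -Real.sin η1 * (x j0).re + Real.cos η1 * (x j0).im := by
        simp [ip, Complex.exp_re, Complex.exp_im]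
      have e1' : ip (-(I * exp (-(η2 * I)))) (x j0)
          = -Real.sin η2 * (x j0).re - Real.cos η2 * (x j0).im := by
        simp [ip, Complex.exp_re, Complex.exp_im]
        try ring
      rw [e0] at ha
      rw [e1'] at hb
      have hs2 : Real.sin (η1 + η2) * (x j0).re ≤ Real.cos η2 * δ := by
        rw [Real.sin_add]
        nlinarith [mul_pos hc2 (sub_pos.2 ha), mul_pos (neg_pos.2 hc1) (neg_pos.2 hb)]
      have hs3 : Real.cos η2 * δ ≤ δ := by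
        nlinarith [Real.cos_le_one η2]
      have hs4 : Real.sin (η1 + η2) * (x j0).re ≤ Real.sin (η1 + η2) * d1 := by linarith
      exact le_of_mul_le_mul_left hs4 hsin
    · linarith
    · linarith
    · exact lt_of_le_of_lt ((pol2 n x j0 j2 j3).trans hp1) (lt_of_lt_of_le hl (by linarith))
  obtain ⟨j0, hj0⟩ := hv1 0 (by decide)
  obtain ⟨j2, hj2⟩ := hv1 2 (by decide)
  obtain ⟨j3, hj3⟩ := hv1 3 (by decide)
  exact hg δ hδ (lt_of_lt_of_le hδ0 hm1) {0} n x A ⟨0, by decide⟩ (by decide) hv1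
    (by
      rintro j (h | h)
      · exact (key j j2 j3 h hj2 hj3).1
      · exact absurd h (h1n j))
    (fun j h => (key j0 j j3 hj0 h hj3).2.1)
    (fun j h => (key j0 j2 j hj0 hj2 h).2.2) hst
    (lt_of_le_of_lt hp1 (lt_of_lt_of_le hl (by linarith)))

end Pool.Agent.XQ.K4.H27
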