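import Pool.Agent.Helper16_XQ.StmtD

/-!
Squad XQ (MP_5b0138_an), module JLB: lower bound for the contribution of facing sides.
-/

set_option autoImplicit false

namespace Pool.Agent.XQ.H27J

open MeasureTheory Complex Filter Topology ProbabilityTheory Pool.Agent.H16Iso Pool.Agent.H62T
open Pool.Agent.H16F (Sublin ind)
open Pool.Agent.AEU
open Pool.Agent.H62T.H9 (AM)
open Pool.Agent.AEU.H35

/-- the main term -/
noncomputable def f1 (L t1 t : ℝ) : ℝ := if t ≤ t1 then Real.exp (-((L / 2) ^ 2 / t)) else 0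

lemma f1_nonneg (L t1 t : ℝ) : 0 ≤ f1 L t1 t := by
  unfold f1
  split_ifs
  · exact (Real.exp_pos _).le
  · exact le_refl _

lemma f1_le (L t1 t : ℝ) : f1 L t1 t ≤ Real.exp (-((L / 2) ^ 2 / t)) := by
  unfold f1
  split_ifs
  · exact le_refl _
  · exact (Real.exp_pos _).le

lemma adm_f1 {L : ℝ} (hL : 0 < L) (t1 : ℝ) : Adm (f1 L t1) := by
  refine ⟨?_, ⟨1, (L / 2) ^ 2, by positivity, fun t _ _ => ?_⟩, ⟨1, fun t ht => ?_⟩⟩
  · unfold f1
    exact Measurable.ite measurableSet_Iic (by fun_prop) measurable_const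
  · rw [abs_of_nonneg (f1_nonneg L t1 t), one_mul]
    exact f1_le L t1 t
  · rw [abs_of_nonneg (f1_nonneg L t1 t), one_mul]
    refine (f1_le L t1 t).trans (le_trans (Real.exp_le_one_iff.2 ?_) ht)
    have : 0 ≤ (L / 2) ^ 2 / t := by positivity
    linarith

/-- the transform of the main term -/
theorem main_int {L t1 : ℝ} (hL : 0 < L) (ht1 : 0 < t1) : ∀ κ : ℝ, max 1 (L / t1) ≤ κ →
    Real.exp (-(L / 2)) / (8 * Real.pi * L) * κ ^ (1 / 2 : ℝ) * Real.exp (-(L * κ))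
      ≤ Lap (f1 L t1) κ := by
  intro κ hκ
  have hκ1 : 1 ≤ κ := (le_max_left _ _).trans hκ
  have hκ0 : 0 < κ := by linarith
  have hκt : L ≤ κ * t1 := by
    have := (le_max_right _ _).trans hκ
    rwa [div_le_iff₀ ht1] at this
  obtain ⟨q, hq⟩ : ∃ q, q = Real.sqrt κ := ⟨_, rfl⟩
  have hq0 : 0 < q := by rw [hq]; exact Real.sqrt_pos.2 hκ0
  have hq2 : q ^ 2 = κ := by rw [hq]; exact Real.sq_sqrt hκ0.le
  have hq1 : 1 ≤ q := by rw [hq]; exact Real.one_le_sqrt.2 hκ1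
  have hpow : κ ^ (1 / 2 : ℝ) = q := by rw [hq, Real.sqrt_eq_rpow]
  obtain ⟨s, hs'⟩ : ∃ s, s = L / (2 * κ) := ⟨_, rfl⟩
  have hs0 : 0 < s := by rw [hs']; positivity
  have hsκ : κ * s = L / 2 := by rw [hs']; field_simp
  have hpi := Real.pi_pos
  -- value on the interval
  have hval : ∀ t ∈ Set.Icc s (s + s / q), κ ^ 2 / (4 * Real.pi * L ^ 2) *
      Real.exp (-(L * κ) - L / 2) ≤
        Real.exp (-(κ ^ 2 * t)) * f1 L t1 t / (4 * Real.pi * t ^ 2) := by
    intro t ht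
    have ht0 : 0 < t := hs0.trans_le ht.1
    have h1 : s / q ≤ s := div_le_self hs0.le hq1
    have h2 : t ≤ 2 * s := by linarith only [h1, ht.2]
    have h3 : t ≤ t1 := by
      refine h2.trans ?_
      have : κ * (2 * s) ≤ κ * t1 := by
        calc κ * (2 * s) = L := by linarith only [hsκ]
          _ ≤ _ := hκt
      exact le_of_mul_le_mul_left this hκ0
    have e1 : f1 L t1 t = Real.exp (-((L / 2) ^ 2 / t)) := by unfold f1; rw [if_pos h3]
    rw [e1, ← Real.exp_add]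
    have e2 : -(κ ^ 2 * t) + -((L / 2) ^ 2 / t) = -(L * κ) - (κ * t - L / 2) ^ 2 / t := by
      field_simp
      ring
    have h4 : (κ * t - L / 2) ^ 2 / t ≤ L / 2 := by
      rw [div_le_iff₀ ht0]
      have h5 : 0 ≤ κ * t - L / 2 := by
        have : κ * s ≤ κ * t := mul_le_mul_of_nonneg_left ht.1 hκ0.le
        linarith only [hsκ, this]
      have h6 : κ * t - L / 2 ≤ L / (2 * q) := by
        have : κ * t ≤ κ * (s + s / q) := mul_le_mul_of_nonneg_left ht.2 hκ0.le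
        have e3 : κ * (s + s / q) = L / 2 + L / (2 * q) := by
          calc κ * (s + s / q) = κ * s + κ * s / q := by ring
            _ = _ := by rw [hsκ]; field_simp
        linarith
      calc (κ * t - L / 2) ^ 2 ≤ (L / (2 * q)) ^ 2 := pow_le_pow_left₀ h5 h6 2
        _ = L / 2 * s := by rw [hs', ← hq2]; field_simp
        _ ≤ L / 2 * t := mul_le_mul_of_nonneg_left ht.1 (by linarith only [hL])
    rw [e2]
    have h7 : Real.exp (-(L * κ) - L / 2) ≤ Real.exp (-(L * κ) - (κ * t - L / 2) ^ 2 / t) :=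
      Real.exp_le_exp.2 (by linarith only [h4])
    have h8 : κ ^ 2 / (4 * Real.pi * L ^ 2) ≤ 1 / (4 * Real.pi * t ^ 2) := by
      rw [div_le_div_iff₀ (by positivity) (by positivity)]
      have h9 : κ * t ≤ L := by
        have : κ * t ≤ κ * (2 * s) := mul_le_mul_of_nonneg_left h2 hκ0.le
        linarith only [hsκ, this]
      have h10 : (κ * t) ^ 2 ≤ L ^ 2 := pow_le_pow_left₀ (by positivity) h9 2
      nlinarith only [hpi, h10]
    calc κ ^ 2 / (4 * Real.pi * L ^ 2) * Real.exp (-(L * κ) - L / 2)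
        ≤ 1 / (4 * Real.pi * t ^ 2) * Real.exp (-(L * κ) - (κ * t - L / 2) ^ 2 / t) := by
          gcongr
      _ = _ := by ring
  have hint := (adm_f1 hL t1).integrable hκ0
  have hsub : Set.Icc s (s + s / q) ⊆ Set.Ioi 0 := fun t ht => hs0.trans_le ht.1
  have h1 : ∫ t in Set.Icc s (s + s / q), κ ^ 2 / (4 * Real.pi * L ^ 2) *
      Real.exp (-(L * κ) - L / 2) ≤ Lap (f1 L t1) κ := by
    unfold Lap
    refine (setIntegral_mono_on (integrableOn_const (by simp)) (hint.mono_set hsub)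
      measurableSet_Icc hval).trans ?_
    refine setIntegral_mono_set hint ?_ (Eventually.of_forall hsub)
    refine (ae_restrict_iff' measurableSet_Ioi).2 (Eventually.of_forall fun t ht => ?_)
    have ht0 : (0 : ℝ) < t := ht
    have := f1_nonneg L t1 t
    show (0 : ℝ) ≤ _
    positivity
  refine le_trans (le_of_eq ?_) h1
  rw [setIntegral_const, smul_eq_mul, measureReal_def, Real.volume_Icc,
    ENNReal.toReal_ofReal (by have : 0 ≤ s / q := by positivity
                              linarith), hpow]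
  have e4 : Real.exp (-(L * κ) - L / 2) = Real.exp (-(L / 2)) * Real.exp (-(L * κ)) := by
    rw [← Real.exp_add]; congr 1; ring
  rw [e4, hs', ← hq2]
  field_simp
  ring

/-- uniform constants -/
lemma unif (hFb : FbStmt) {w : ℝ} (hw : 0 < w) (U : Finset ℂ) (hU : ∀ u ∈ U, ‖u‖ = 1) :
    ∃ C t0 : ℝ, 0 < C ∧ 0 < t0 ∧ ∀ u ∈ U, ∀ t : ℝ, 0 < t → t < t0 →
      ∫ ω, (max (Real.sqrt t * (hs ω u + hs ω (-u)) - w) 0) ^ 2 ∂PP
        ≤ C * t * Real.exp (-(w ^ 2 / t)) := by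
  classical
  induction U using Finset.induction_on with
  | empty => exact ⟨1, 1, one_pos, one_pos, fun u hu => absurd hu (Finset.notMem_empty _)⟩
  | insert a s ha ih =>
    obtain ⟨C, t0, hC, ht0, h⟩ := ih fun u hu => hU u (Finset.mem_insert_of_mem hu)
    obtain ⟨c', C', t0', -, hC', ht0', h'⟩ := hFb a w (hU a (Finset.mem_insert_self a s)) hw
    refine ⟨max C C', min t0 t0', lt_max_of_lt_left hC, lt_min ht0 ht0', ?_⟩
    intro u hu t ht htt
    have hmono : ∀ D : ℝ, D ≤ max C C' → D * t * Real.exp (-(w ^ 2 / t)) ≤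
        max C C' * t * Real.exp (-(w ^ 2 / t)) := by
      intro D hD
      gcongr
    rcases Finset.mem_insert.1 hu with rfl | hu
    · exact ((h' t ht (htt.trans_le (min_le_right _ _))).2).trans (hmono _ (le_max_right _ _))
    · exact (h u hu t ht (htt.trans_le (min_le_left _ _))).trans (hmono _ (le_max_left _ _))

/-- width -/
noncomputable def wd (t : ℝ) (u : ℂ) (ω : Sp) : ℝ := Real.sqrt t * (hs ω u + hs ω (-u))

open Classical in
/-- all normals as half-planes -/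
noncomputable def SS (U V : Finset ℂ) : Finset HP :=
  (U ∪ U.image (fun u => -u) ∪ V).image fun u => ((u, 0) : HP)

open Classical in
lemma sum_SS (U V : Finset ℂ) (h : ℂ → ℝ) : ∑ s ∈ SS U V, |h s.1| =
    ∑ u ∈ (U ∪ U.image (fun u => -u) ∪ V : Finset ℂ), |h u| := by
  unfold SS
  rw [Finset.sum_image]
  intro a _ b _ hab
  exact congrArg Prod.fst hab

lemma le_SS {U V : Finset ℂ} {u : ℂ} (hu : u ∈ U ∨ -u ∈ U ∨ u ∈ V) (h : ℂ → ℝ) :
    |h u| ≤ ∑ s ∈ SS U V, |h s.1| := by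
  classical
  rw [sum_SS]
  refine Finset.single_le_sum (f := fun u => |h u|) (fun _ _ => abs_nonneg _) ?_
  simp only [Finset.mem_union, Finset.mem_image]
  rcases hu with hu | hu | hu
  · exact Or.inl (Or.inl hu)
  · exact Or.inl (Or.inr ⟨-u, hu, neg_neg u⟩)
  · exact Or.inr hu

lemma sumV_le (U V : Finset ℂ) (h : ℂ → ℝ) : ∑ u ∈ V, |h u| ≤ ∑ s ∈ SS U V, |h s.1| := by
  classical
  rw [sum_SS]
  refine Finset.sum_le_sum_of_subset_of_nonneg ?_ fun _ _ _ => abs_nonneg _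
  intro u hu
  simp only [Finset.mem_union]
  exact Or.inr hu

lemma sz_one (S : Finset HP) (h : ℂ → ℝ) : 1 ≤ sz S h := by
  unfold sz
  have h0 : 0 ≤ ∑ s ∈ S, |h s.1| := Finset.sum_nonneg fun i _ => abs_nonneg _
  nlinarith

lemma max_wd_le {U V : Finset ℂ} {u : ℂ} (hu : u ∈ U) {w : ℝ} (hw : 0 < w) (t : ℝ) (ω : Sp) :
    max (wd t u ω - w) 0 ≤ 2 * sz (SS U V) (fun u => Real.sqrt t * hs ω u) ∧
    (max (wd t u ω - w) 0) ^ 2 ≤ 4 * sz (SS U V) (fun u => Real.sqrt t * hs ω u) := by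
  have h1 := le_SS (V := V) (Or.inl hu) (fun u => Real.sqrt t * hs ω u)
  have h2 := le_SS (V := V) (u := -u) (Or.inr (Or.inl (by rwa [neg_neg])))
    (fun u => Real.sqrt t * hs ω u)
  have h0 : 0 ≤ ∑ s ∈ SS U V, |Real.sqrt t * hs ω s.1| :=
    Finset.sum_nonneg fun i _ => abs_nonneg _
  have h3 : wd t u ω ≤ 2 * ∑ s ∈ SS U V, |Real.sqrt t * hs ω s.1| := by
    unfold wd
    rw [mul_add]
    have := le_abs_self (Real.sqrt t * hs ω u)
    have := le_abs_self (Real.sqrt t * hs ω (-u))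
    linarith
  have h4 : max (wd t u ω - w) 0 ≤ 2 * (1 + ∑ s ∈ SS U V, |Real.sqrt t * hs ω s.1|) :=
    max_le (by linarith) (by linarith)
  have h5 : 0 ≤ max (wd t u ω - w) 0 := le_max_right _ _
  unfold sz
  constructor
  · refine h4.trans ?_
    nlinarith only [h0]
  · refine (pow_le_pow_left₀ h5 h4 2).trans (le_of_eq ?_)
    ring

lemma tail_lam (hLD : LDStmt) {A : ℝ} (hA : 0 < A) : ∀ ε : ℝ, 0 < ε → ε < 1 → ∃ C : ℝ,
    ∀ t : ℝ, 0 < t → t ≤ 1 → PP {ω | A ≤ Real.sqrt t * lam (hs ω)} ≤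
      ENNReal.ofReal (C * Real.exp (-((1 - ε) * (A / 2) ^ 2 / t))) := by
  intro ε h0 h1
  obtain ⟨C, hC⟩ := hLD ε h0 h1
  refine ⟨C, fun t ht _ => ?_⟩
  have hst : 0 < Real.sqrt t := Real.sqrt_pos.2 ht
  have e1 : {ω | A ≤ Real.sqrt t * lam (hs ω)} = {ω | A / Real.sqrt t ≤ lam (hs ω)} := by
    ext ω
    show A ≤ Real.sqrt t * lam (hs ω) ↔ A / Real.sqrt t ≤ lam (hs ω)
    rw [div_le_iff₀ hst, mul_comm]
  have e2 : (1 - ε) * (A / 2) ^ 2 / t = (1 - ε) * (A / Real.sqrt t) ^ 2 / 4 := by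
    rw [div_pow, div_pow, Real.sq_sqrt ht.le]
    ring
  rw [e1, e2]
  exact hC _ (by positivity)

section Main

variable {L A m C C' : ℝ} {U V : Finset ℂ} {W : ℝ → Sp → ℝ}

/-- the hypothesis on `W` at the time `t` -/
def Hyp1 (L A m C C' : ℝ) (U V : Finset ℂ) (W : ℝ → Sp → ℝ) (t : ℝ) : Prop :=
  ∀ᵐ ω ∂PP, |W t ω| ≤ C' * (1 + ∑ u ∈ V, |Real.sqrt t * hs ω u|) ^ 2 ∧
    (A ≤ Real.sqrt t * lam (hs ω) → W t ω = 0) ∧
    (Real.sqrt t * lam (hs ω) < A →
      ((∀ u ∈ U, wd t u ω ≤ L / 2) → W t ω = 0) ∧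
      ∀ u ∈ U, L / 2 < wd t u ω →
        m * (wd t u ω - L / 2) - C * (wd t u ω - L / 2) ^ 2 ≤ W t ω)

lemma abs_W_le {t : ℝ} (h : Hyp1 L A m C C' U V W t) : ∀ᵐ ω ∂PP,
    |W t ω| ≤ |C'| * sz (SS U V) (fun u => Real.sqrt t * hs ω u) := by
  filter_upwards [h] with ω hω
  refine hω.1.trans ((mul_le_mul_of_nonneg_right (le_abs_self C') (by positivity)).trans ?_)
  refine mul_le_mul_of_nonneg_left ?_ (abs_nonneg _)
  unfold sz
  have h1 := sumV_le U V fun u => Real.sqrt t * hs ω u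
  have h0 : 0 ≤ ∑ u ∈ V, |Real.sqrt t * hs ω u| := Finset.sum_nonneg fun i _ => abs_nonneg _
  exact pow_le_pow_left₀ (by linarith) (by linarith) 2

lemma abs_W_near {t : ℝ} (ht : 0 < t) (ht1 : t ≤ 1) (h : Hyp1 L A m C C' U V W t) :
    ∀ᵐ ω ∂PP, |W t ω| ≤ |C'| * sz (SS U V) (hs ω) *
      ind (ω ∈ {ω | ∃ u ∈ U, ω ∈ {ω | L / 2 ≤ wd t u ω}}) := by
  filter_upwards [h, abs_W_le h] with ω hω h2
  show |W t ω| ≤ |C'| * sz (SS U V) (hs ω) * ind (∃ u ∈ U, L / 2 ≤ wd t u ω)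
  by_cases hb : ∃ u ∈ U, L / 2 ≤ wd t u ω
  · rw [H16F.H10.ind_pos hb, mul_one]
    exact h2.trans (mul_le_mul_of_nonneg_left (sz_scale_near _ ω ht ht1) (abs_nonneg _))
  · rw [H16F.H10.ind_neg hb, mul_zero]
    have h3 : W t ω = 0 := by
      by_cases hl : A ≤ Real.sqrt t * lam (hs ω)
      · exact hω.2.1 hl
      · refine (hω.2.2 (not_le.1 hl)).1 fun u hu => ?_
        by_contra hcon
        exact hb ⟨u, hu, (not_le.1 hcon).le⟩
    rw [h3, abs_zero]

lemma int_W (hW : Measurable fun p : ℝ × Sp => W p.1 p.2) {t : ℝ} (ht : 0 < t)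
    (h : Hyp1 L A m C C' U V W t) : Integrable (fun ω => W t ω) PP := by
  have hm : Measurable fun ω => W t ω := hW.comp measurable_prodMk_left
  refine ((am_sz (SS U V) (|C'| * max t 1)).integrable).mono' hm.aestronglyMeasurable ?_
  filter_upwards [abs_W_le h] with ω hω
  rw [Real.norm_eq_abs]
  refine hω.trans ?_
  rw [mul_assoc]
  refine mul_le_mul_of_nonneg_left ?_ (abs_nonneg _)
  rcases le_total t 1 with h1 | h1
  · rw [max_eq_right h1, one_mul]; exact sz_scale_near _ ω ht h1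
  · rw [max_eq_left h1]; exact sz_scale_far _ ω h1

theorem adm_W (hL : 0 < L) (hU : ∀ u ∈ U, ‖u‖ = 1)
    (hW : Measurable fun p : ℝ × Sp => W p.1 p.2)
    (h : ∀ t, 0 < t → Hyp1 L A m C C' U V W t) :
    Adm (fun t => ∫ ω, W t ω ∂PP) ∧
      ∃ C2 : ℝ, 0 ≤ C2 ∧ ∀ t, 0 < t → |∫ ω, W t ω ∂PP| ≤ C2 * max t 1 := by
  have hb : ∀ t, 0 < t → |∫ ω, W t ω ∂PP| ≤
      (∫ ω, |C'| * sz (SS U V) (hs ω) ∂PP) * max t 1 := by
    intro t ht
    have hi : Integrable (fun ω => |C'| * sz (SS U V) (hs ω) * max t 1) PP :=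
      (am_sz (SS U V) |C'|).integrable.mul_const _
    have h1 := norm_integral_le_of_norm_le (f := fun ω => W t ω) hi (by
      filter_upwards [abs_W_le (h t ht)] with ω hω
      rw [Real.norm_eq_abs]
      refine hω.trans ?_
      rw [mul_assoc]
      refine mul_le_mul_of_nonneg_left ?_ (abs_nonneg _)
      rcases le_total t 1 with h1 | h1
      · rw [max_eq_right h1, mul_one]; exact sz_scale_near _ ω ht h1
      · rw [max_eq_left h1, mul_comm]; exact sz_scale_far _ ω h1)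
    rw [Real.norm_eq_abs, integral_mul_const] at h1
    exact h1
  have hnn : 0 ≤ ∫ ω, |C'| * sz (SS U V) (hs ω) ∂PP :=
    integral_nonneg fun ω => mul_nonneg (abs_nonneg _) (sz_nonneg _ _)
  refine ⟨⟨?_, ?_, ?_⟩, _, hnn, hb⟩
  · exact (hW.stronglyMeasurable.integral_prod_right' (f := fun p : ℝ × Sp => W p.1 p.2)).measurable
  · have hA := H16F.H10.tail_finset U (d := L / 2) (A := fun u t => {ω | L / 2 ≤ wd t u ω}) (by
      intro u hu
      exact H16F.H10.tail_scale (X := fun ω => hs ω u + hs ω (-u))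
        (H16F.H13.ut.1 u (hU u hu)) (by linarith))
    obtain ⟨C3, -, hC3⟩ := H16F.H10.tail_int (am_sz (SS U V) |C'|)
      (fun ω => mul_nonneg (abs_nonneg _) (sz_nonneg _ _)) hA (1 / 2) (by norm_num) (by norm_num)
    refine ⟨C3, (1 - 1 / 2) * (L / 2) ^ 2, by positivity, fun t ht ht1 => ?_⟩
    exact hC3 t ht ht1 (fun ω => W t ω) (abs_W_near ht ht1 (h t ht))
  · refine ⟨∫ ω, |C'| * sz (SS U V) (hs ω) ∂PP, fun t ht => ?_⟩
    have := hb t (by linarith)
    rwa [max_eq_left ht] at this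

/-- lower bound for small times -/
theorem lower (hLD : LDStmt) (hFb : FbStmt) (hL : 0 < L) (hA : L < A) (hm : 0 < m)
    (hUn : U.Nonempty) (hU : ∀ u ∈ U, ‖u‖ = 1)
    (hW : Measurable fun p : ℝ × Sp => W p.1 p.2)
    (h : ∀ t, 0 < t → Hyp1 L A m C C' U V W t) :
    ∃ c t1 C1 : ℝ, 0 < c ∧ 0 < t1 ∧ t1 ≤ 1 ∧ 0 ≤ C1 ∧ ∀ t, 0 < t → t ≤ t1 →
      c * Real.exp (-((L / 2) ^ 2 / t)) - C1 * Real.exp (-((A ^ 2 + L ^ 2) / 8 / t))
        ≤ ∫ ω, W t ω ∂PP := by
  obtain ⟨u0, hu0⟩ := hUn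
  have hw : 0 < L / 2 := by linarith
  obtain ⟨c0, C0, t0, hc0, -, ht0, h0⟩ := hFb u0 (L / 2) (hU u0 hu0) hw
  obtain ⟨CU, tU, hCU, htU, hUb⟩ := unif hFb hw U hU
  have hA0 : 0 < A := hL.trans hA
  obtain ⟨ε, hε⟩ : ∃ ε, ε = (A ^ 2 - L ^ 2) / (2 * A ^ 2) := ⟨_, rfl⟩
  have hAL : L ^ 2 < A ^ 2 := by nlinarith only [hL, hA]
  have hε0 : 0 < ε := by rw [hε]; apply div_pos; linarith; positivity
  have hε1 : ε < 1 := by
    rw [hε, div_lt_one (by positivity)]
    linarith only [hAL, sq_nonneg L]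
  have hkey : (1 - ε) * (A / 2) ^ 2 = (A ^ 2 + L ^ 2) / 8 := by
    rw [hε]; field_simp; ring
  obtain ⟨C1, hC10, hC1⟩ := H16F.H10.tail_int (am_sz (SS U V) (m * 2))
    (fun ω => mul_nonneg (by positivity) (sz_nonneg _ _)) (tail_lam hLD hA0) ε hε0 hε1
  -- choice of `t1`
  obtain ⟨K, hK⟩ : ∃ K : ℝ, K = |C| * (U.card * CU) := ⟨_, rfl⟩
  have hK0 : 0 ≤ K := by rw [hK]; positivity
  obtain ⟨t1, ht1⟩ : ∃ t1 : ℝ, t1 = min (min (t0 / 2) (tU / 2)) (min 1 (m * c0 / (2 * (K + 1)))) :=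
    ⟨_, rfl⟩
  have p1 : 0 < t1 := by
    rw [ht1]
    refine lt_min (lt_min (by linarith) (by linarith)) (lt_min one_pos (by positivity))
  have p2 : t1 < t0 := by
    have : t1 ≤ t0 / 2 := by rw [ht1]; exact (min_le_left _ _).trans (min_le_left _ _)
    linarith
  have p3 : t1 < tU := by
    have : t1 ≤ tU / 2 := by rw [ht1]; exact (min_le_left _ _).trans (min_le_right _ _)
    linarith only [p1, this]
  have p4 : t1 ≤ 1 := by rw [ht1]; exact (min_le_right _ _).trans (min_le_left _ _)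
  have p5 : K * t1 ≤ m * c0 / 2 := by
    have h1 : t1 ≤ m * c0 / (2 * (K + 1)) := by
      rw [ht1]; exact (min_le_right _ _).trans (min_le_right _ _)
    calc K * t1 ≤ (K + 1) * (m * c0 / (2 * (K + 1))) := by gcongr; linarith
      _ = m * c0 / 2 := by field_simp
  refine ⟨m * c0 / 2, t1, C1, by positivity, p1, p4, hC10, fun t ht htt => ?_⟩
  have ht1' : t ≤ 1 := htt.trans p4
  obtain ⟨e, he⟩ : ∃ e, e = Real.exp (-((L / 2) ^ 2 / t)) := ⟨_, rfl⟩
  have he0 : 0 < e := by rw [he]; exact Real.exp_pos _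
  -- the three terms
  have mwd : ∀ u : ℂ, Measurable fun ω => wd t u ω := fun u =>
    ((momS.1 u).add (momS.1 (-u))).const_mul _
  have i1 : Integrable (fun ω => max (wd t u0 ω - L / 2) 0) PP := by
    refine ((am_sz (SS U V) 2).integrable).mono'
      (((mwd u0).sub_const _).max measurable_const).aestronglyMeasurable
      (Eventually.of_forall fun ω => ?_)
    rw [Real.norm_eq_abs, abs_of_nonneg (le_max_right _ _)]
    exact (max_wd_le (V := V) hu0 hw t ω).1.trans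
      (mul_le_mul_of_nonneg_left (sz_scale_near _ ω ht ht1') (by norm_num))
  have i2 : ∀ u ∈ U, Integrable (fun ω => (max (wd t u ω - L / 2) 0) ^ 2) PP := by
    intro u hu
    refine ((am_sz (SS U V) 4).integrable).mono'
      ((((mwd u).sub_const _).max measurable_const).pow_const 2).aestronglyMeasurable
      (Eventually.of_forall fun ω => ?_)
    rw [Real.norm_eq_abs, abs_of_nonneg (by positivity)]
    exact (max_wd_le (V := V) hu hw t ω).2.trans
      (mul_le_mul_of_nonneg_left (sz_scale_near _ ω ht ht1') (by norm_num))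
  have i3 : Integrable (fun ω => ∑ u ∈ U, (max (wd t u ω - L / 2) 0) ^ 2) PP :=
    integrable_finsetSum _ i2
  have iW := int_W hW ht (h t ht)
  -- the inequality
  have hY : ∀ᵐ ω ∂PP, |max (m * max (wd t u0 ω - L / 2) 0
      - |C| * ∑ u ∈ U, (max (wd t u ω - L / 2) 0) ^ 2 - W t ω) 0| ≤
      m * 2 * sz (SS U V) (hs ω) * ind (ω ∈ {ω | A ≤ Real.sqrt t * lam (hs ω)}) := by
    filter_upwards [h t ht] with ω hω
    have hs0 : 0 ≤ |C| * ∑ u ∈ U, (max (wd t u ω - L / 2) 0) ^ 2 :=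
      mul_nonneg (abs_nonneg _) (Finset.sum_nonneg fun u _ => by positivity)
    rw [abs_of_nonneg (le_max_right _ _)]
    by_cases hl : A ≤ Real.sqrt t * lam (hs ω)
    · rw [show ind (A ≤ Real.sqrt t * lam (hs ω)) = 1 from H16F.H10.ind_pos hl,
        mul_one, hω.2.1 hl]
      have h1 := (max_wd_le (V := V) hu0 hw t ω).1.trans
        (mul_le_mul_of_nonneg_left (sz_scale_near (SS U V) ω ht ht1') (by norm_num))
      refine max_le ?_ (mul_nonneg (by positivity) (sz_nonneg _ _))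
      calc m * max (wd t u0 ω - L / 2) 0
          - |C| * ∑ u ∈ U, (max (wd t u ω - L / 2) 0) ^ 2 - 0
          ≤ m * max (wd t u0 ω - L / 2) 0 := by linarith
        _ ≤ m * (2 * sz (SS U V) (hs ω)) := mul_le_mul_of_nonneg_left h1 hm.le
        _ = _ := by ring
    · rw [show ind (A ≤ Real.sqrt t * lam (hs ω)) = 0 from H16F.H10.ind_neg hl,
        mul_zero]
      refine max_le ?_ (le_refl _)
      obtain ⟨hz, hp⟩ := hω.2.2 (not_le.1 hl)
      have hone : ∀ u ∈ U, L / 2 < wd t u ω →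
          m * (wd t u ω - L / 2) ≤ |C| * ∑ u ∈ U, (max (wd t u ω - L / 2) 0) ^ 2 + W t ω := by
        intro u hu hlt
        have h1 := hp u hu hlt
        have h2 : (wd t u ω - L / 2) ^ 2 ≤ ∑ u ∈ U, (max (wd t u ω - L / 2) 0) ^ 2 := by
          have h3 := Finset.single_le_sum (f := fun u => (max (wd t u ω - L / 2) 0) ^ 2)
            (fun u _ => by positivity) hu
          rwa [max_eq_left (show 0 ≤ wd t u ω - L / 2 by linarith)] at h3
        have h4 : C * (wd t u ω - L / 2) ^ 2 ≤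
            |C| * ∑ u ∈ U, (max (wd t u ω - L / 2) 0) ^ 2 :=
          (mul_le_mul_of_nonneg_right (le_abs_self C) (by positivity)).trans
            (mul_le_mul_of_nonneg_left h2 (abs_nonneg _))
        linarith only [h1, h4]
      by_cases hall : ∀ u ∈ U, wd t u ω ≤ L / 2
      · rw [hz hall, max_eq_right (show wd t u0 ω - L / 2 ≤ 0 by linarith only [hall u0 hu0])]
        linarith only [hs0]
      · push Not at hall
        obtain ⟨u, hu, hlt⟩ := hall
        by_cases h5 : L / 2 < wd t u0 ω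
        · rw [max_eq_left (show 0 ≤ wd t u0 ω - L / 2 by linarith)]
          have := hone u0 hu0 h5
          linarith only [this]
        · rw [max_eq_right (show wd t u0 ω - L / 2 ≤ 0 by linarith only [h5])]
          have h6 := hone u hu hlt
          have h7 : 0 ≤ m * (wd t u ω - L / 2) := mul_nonneg hm.le (by linarith only [hlt])
          linarith
  have h2 := hC1 t ht ht1' _ hY
  rw [hkey] at h2
  have i5 : Integrable (fun ω => m * max (wd t u0 ω - L / 2) 0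
      - |C| * ∑ u ∈ U, (max (wd t u ω - L / 2) 0) ^ 2) PP :=
    (i1.const_mul m).sub (i3.const_mul |C|)
  have i4 : Integrable (fun ω => m * max (wd t u0 ω - L / 2) 0
      - |C| * ∑ u ∈ U, (max (wd t u ω - L / 2) 0) ^ 2 - W t ω) PP :=
    i5.sub iW
  have h3 : ∫ ω, (m * max (wd t u0 ω - L / 2) 0
      - |C| * ∑ u ∈ U, (max (wd t u ω - L / 2) 0) ^ 2 - W t ω) ∂PP ≤
      C1 * Real.exp (-((A ^ 2 + L ^ 2) / 8 / t)) := by
    refine le_trans ?_ ((le_abs_self _).trans h2)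
    exact integral_mono i4 (i4.sup (integrable_const 0)) fun ω => le_max_left _ _
  rw [integral_sub i5 iW,
    integral_sub (i1.const_mul m) (i3.const_mul |C|), integral_const_mul, integral_const_mul,
    integral_finsetSum _ i2] at h3
  have h4 : c0 * e ≤ ∫ ω, max (wd t u0 ω - L / 2) 0 ∂PP := by
    rw [he]; exact (h0 t ht (htt.trans_lt p2)).1
  have h5 : ∑ u ∈ U, ∫ ω, (max (wd t u ω - L / 2) 0) ^ 2 ∂PP ≤ U.card * CU * t * e := by
    have : ∑ u ∈ U, ∫ ω, (max (wd t u ω - L / 2) 0) ^ 2 ∂PP ≤ ∑ _u ∈ U, CU * t * e := by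
      refine Finset.sum_le_sum fun u hu => ?_
      rw [he]
      exact hUb u hu t ht (htt.trans_lt p3)
    refine this.trans (le_of_eq ?_)
    rw [Finset.sum_const, nsmul_eq_mul]
    ring
  have h6 : |C| * ∑ u ∈ U, ∫ ω, (max (wd t u ω - L / 2) 0) ^ 2 ∂PP ≤ m * c0 / 2 * e := by
    calc |C| * ∑ u ∈ U, ∫ ω, (max (wd t u ω - L / 2) 0) ^ 2 ∂PP
        ≤ |C| * (U.card * CU * t * e) := mul_le_mul_of_nonneg_left h5 (abs_nonneg _)
      _ = K * t * e := by rw [hK]; ring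
      _ ≤ K * t1 * e := by gcongr
      _ ≤ m * c0 / 2 * e := by gcongr
  have h7 : m * (c0 * e) ≤ m * ∫ ω, max (wd t u0 ω - L / 2) 0 ∂PP :=
    mul_le_mul_of_nonneg_left h4 hm.le
  rw [← he]
  linarith only [h3, h6, h7]

end Main

/-- JLB -/
theorem jlb (hLD : LDStmt) : JlbStatement := by
  intro hFb L A m C C' U V W hL hA hm hUn hU hW hyp
  have h : ∀ t, 0 < t → Hyp1 L A m C C' U V W t := fun t ht => hyp t ht
  obtain ⟨hadm, C2, hC20, hC2⟩ := adm_W hL hU hW h
  obtain ⟨c, t1, C1, hc, ht1, ht11, hC10, hlow⟩ := lower hLD hFb hL hA hm hUn hU hW h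
  have hA0 : 0 < A := hL.trans hA
  -- the error term
  obtain ⟨E, hE⟩ : ∃ E : ℝ → ℝ, E = fun t => if t ≤ t1 then
    C1 * Real.exp (-((A ^ 2 + L ^ 2) / 8 / t)) else C2 / t1 * max t 1 := ⟨_, rfl⟩
  have hE0 : ∀ t, 0 ≤ E t := by
    intro t
    rw [hE]
    simp only
    split_ifs
    · positivity
    · positivity
  obtain ⟨B, hB⟩ : ∃ B, B = Real.sqrt ((A ^ 2 + L ^ 2) / 2) := ⟨_, rfl⟩
  have hB2 : B ^ 2 = (A ^ 2 + L ^ 2) / 2 := by rw [hB]; exact Real.sq_sqrt (by positivity)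
  have hBL : L < B := by
    rw [hB]
    refine Real.lt_sqrt_of_sq_lt ?_
    nlinarith only [hL, hA]
  have hnear : ∀ t, 0 < t → t ≤ 1 → |E t| ≤ (C1 + C2 / t1 * Real.exp (B ^ 2 / (4 * t1))) *
      Real.exp (-(B ^ 2 / (4 * t))) := by
    intro t ht ht'
    rw [abs_of_nonneg (hE0 t), hE]
    simp only
    have e1 : (A ^ 2 + L ^ 2) / 8 / t = B ^ 2 / (4 * t) := by rw [hB2]; field_simp; ring
    have hpos : 0 ≤ C2 / t1 * Real.exp (B ^ 2 / (4 * t1)) := by positivity
    split_ifs with h1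
    · rw [e1]
      gcongr
      linarith
    · rw [max_eq_right ht', mul_one]
      have h2 : 1 ≤ Real.exp (B ^ 2 / (4 * t1)) * Real.exp (-(B ^ 2 / (4 * t))) := by
        rw [← Real.exp_add]
        apply Real.one_le_exp
        have h3 : B ^ 2 / (4 * t) ≤ B ^ 2 / (4 * t1) := by
          have := (not_le.1 h1).le
          gcongr
        linarith
      calc C2 / t1 ≤ C2 / t1 * (Real.exp (B ^ 2 / (4 * t1)) * Real.exp (-(B ^ 2 / (4 * t)))) :=
            le_mul_of_one_le_right (by positivity) h2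
        _ = C2 / t1 * Real.exp (B ^ 2 / (4 * t1)) * Real.exp (-(B ^ 2 / (4 * t))) := by ring
        _ ≤ _ := by
            gcongr
            linarith
  have hfar : ∀ t, 1 ≤ t → |E t| ≤ (C1 + C2 / t1) * t := by
    intro t ht
    rw [abs_of_nonneg (hE0 t), hE]
    simp only
    have hp : 0 ≤ C2 / t1 := by positivity
    split_ifs with h1
    · have h2 : Real.exp (-((A ^ 2 + L ^ 2) / 8 / t)) ≤ 1 := Real.exp_le_one_iff.2 (by
        have : 0 ≤ (A ^ 2 + L ^ 2) / 8 / t := by positivity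
        linarith)
      calc C1 * Real.exp (-((A ^ 2 + L ^ 2) / 8 / t)) ≤ C1 * 1 := by gcongr
        _ ≤ (C1 + C2 / t1) * t := by nlinarith only [hp, hC10, ht]
    · rw [max_eq_left ht]
      gcongr
      linarith
  have hEm : Measurable E := by
    rw [hE]
    exact Measurable.ite measurableSet_Iic (by fun_prop) (by fun_prop)
  have hB20 : 0 < B ^ 2 := by rw [hB2]; positivity
  have admE : Adm E := by
    refine ⟨hEm, ⟨C1 + C2 / t1 * Real.exp (B ^ 2 / (4 * t1)), B ^ 2 / 4, by positivity,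
      fun t ht ht' => ?_⟩, ⟨C1 + C2 / t1, hfar⟩⟩
    have := hnear t ht ht'
    have e2 : B ^ 2 / 4 / t = B ^ 2 / (4 * t) := by field_simp
    rw [e2]
    exact this
  have smallE : Small L (Lap E) := by
    refine Lap_small (A := B) hL.le hBL ?_ ⟨C1 + C2 / t1, hfar⟩
    intro ε h0 h1
    refine ⟨C1 + C2 / t1 * Real.exp (B ^ 2 / (4 * t1)), fun t ht ht' => (hnear t ht ht').trans ?_⟩
    have hp : 0 ≤ C1 + C2 / t1 * Real.exp (B ^ 2 / (4 * t1)) := by positivity
    refine mul_le_mul_of_nonneg_left (Real.exp_le_exp.2 ?_) hp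
    have h2 : (1 - ε) * B ^ 2 / (4 * t) ≤ B ^ 2 / (4 * t) := by
      refine div_le_div_of_nonneg_right ?_ (by positivity)
      nlinarith only [h0]
    linarith
  -- comparison
  have hcmp : ∀ t, 0 < t → c * f1 L t1 t - E t ≤ ∫ ω, W t ω ∂PP := by
    intro t ht
    rw [hE]
    simp only
    unfold f1
    split_ifs with h1
    · exact hlow t ht h1
    · have h2 := neg_le_of_abs_le (hC2 t ht)
      have h3 : C2 * max t 1 ≤ C2 / t1 * max t 1 := by
        gcongr
        rw [le_div_iff₀ ht1]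
        nlinarith only [hC20, ht11]
      rw [mul_zero]
      linarith
  have adm1 : Adm fun t => c * f1 L t1 t := (adm_f1 hL t1).const_mul c
  obtain ⟨CE, δ, hδ, hCE⟩ := smallE
  obtain ⟨c', hc'⟩ : ∃ c', c' = c * (Real.exp (-(L / 2)) / (8 * Real.pi * L)) := ⟨_, rfl⟩
  have hc'0 : 0 < c' := by
    rw [hc']
    have := Real.pi_pos
    positivity
  have hev : ∀ᶠ κ in atTop, CE * Real.exp (-(δ * κ)) ≤ c' / 2 := by
    have h1 : Tendsto (fun κ : ℝ => CE * Real.exp (-(δ * κ))) atTop (𝓝 (CE * 0)) := by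
      refine Tendsto.const_mul _ ?_
      refine Real.tendsto_exp_atBot.comp ?_
      exact tendsto_neg_atTop_atBot.comp (tendsto_id.const_mul_atTop hδ)
    rw [mul_zero] at h1
    exact h1.eventually (ge_mem_nhds (by linarith only [hc'0]))
  obtain ⟨κ1, hκ1⟩ := (hCE.and hev).exists_forall_of_atTop
  refine ⟨c' / 2, max κ1 (max 1 (L / t1)), by linarith,
    lt_max_of_lt_right (lt_max_of_lt_left one_pos), fun κ hκ => ?_⟩
  obtain ⟨h1, h2⟩ := hκ1 κ ((le_max_left _ _).trans hκ)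
  have hκ2 : max 1 (L / t1) ≤ κ := (le_max_right _ _).trans hκ
  have hκ3 : 1 ≤ κ := (le_max_left _ _).trans hκ2
  have hκ0 : 0 < κ := by linarith
  have h3 : Lap (fun t => c * f1 L t1 t - E t) κ ≤ Lap (fun t => ∫ ω, W t ω ∂PP) κ := by
    unfold Lap
    refine setIntegral_mono_on ((adm1.sub admE).integrable hκ0) (hadm.integrable hκ0)
      measurableSet_Ioi fun t ht => ?_
    have ht0 : (0 : ℝ) < t := ht
    have := hcmp t ht0
    have hpi := Real.pi_pos
    gcongr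
  rw [Lap_sub adm1 admE hκ0] at h3
  have h4 : Lap (fun t => c * f1 L t1 t) κ = c * Lap (f1 L t1) κ := by
    unfold Lap
    rw [← integral_const_mul]
    refine integral_congr_ae (Eventually.of_forall fun t => ?_)
    simp only
    ring
  have h5 := main_int hL ht1 κ hκ2
  obtain ⟨q, hq⟩ : ∃ q, q = κ ^ (1 / 2 : ℝ) := ⟨_, rfl⟩
  have hq1 : 1 ≤ q := by rw [hq]; exact Real.one_le_rpow hκ3 (by norm_num)
  obtain ⟨x, hx⟩ : ∃ x, x = Real.exp (-(L * κ)) := ⟨_, rfl⟩
  have hx0 : 0 < x := by rw [hx]; exact Real.exp_pos _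
  have h6 : c' * q * x ≤ c * Lap (f1 L t1) κ := by
    calc c' * q * x = c * (Real.exp (-(L / 2)) / (8 * Real.pi * L) * κ ^ (1 / 2 : ℝ) *
          Real.exp (-(L * κ))) := by rw [hc', hq, hx]; ring
      _ ≤ _ := mul_le_mul_of_nonneg_left h5 hc.le
  have h7 : Lap E κ ≤ c' / 2 * q * x := by
    calc Lap E κ ≤ |Lap E κ| := le_abs_self _
      _ ≤ CE * Real.exp (-((L + δ) * κ)) := h1
      _ = CE * Real.exp (-(δ * κ)) * x := by
          rw [hx, mul_assoc, ← Real.exp_add]; congr 2; ring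
      _ ≤ c' / 2 * x := by gcongr
      _ ≤ c' / 2 * q * x := by
          have : c' / 2 * 1 ≤ c' / 2 * q := by gcongr
          nlinarith only [hx0, this]
  rw [← hq, ← hx]
  rw [h4] at h3
  linarith

end Pool.Agent.XQ.H27J
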